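import Pool.Agent.H58.SO.Basic

/-!
# Several orbits of vertices: normalization
-/

set_option autoImplicit false

namespace Pool.Agent.H81.SO

open Pool.Agent.H68.BP Pool.Agent.H58.SF Pool.Agent.H53.GC Pool.Agent.H53.NR Pool.Agent.H58.SO
open Classical

theorem iter_fin {Θ : Type} [Finite Θ] (π : Θ → Θ) (h : Function.Bijective π) :
    ∃ j : ℕ, ∀ s, π^[j] (π s) = s := by
  set e : Equiv.Perm Θ := Equiv.ofBijective π h with he
  have h0 : 0 < orderOf e := orderOf_pos e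
  refine ⟨orderOf e - 1, fun s => ?_⟩
  rw [← Function.iterate_succ_apply, Nat.succ_eq_add_one, Nat.sub_add_cancel h0]
  have h1 : (⇑(e ^ orderOf e) : Θ → Θ) = (⇑e)^[orderOf e] := Equiv.Perm.iterate_eq_pow e _ |>.symm
  have h2 : (⇑e : Θ → Θ) = π := rfl
  rw [← h2, ← h1, pow_orderOf_eq_one]
  rfl

theorem pf_STN (hUKM : T_UKM) (hPRM : T_PRM) (hUMB : T_UMB) (hUMC : T_UMC) (hTYB : T_TYB) :
    T_STN := by
  intro σ V X Θ _ M B 𝔸 D h hS h1 h2
  haveI := B.finT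
  haveI := B.ne
  obtain ⟨m0, hm0, hm0a, hm0b, -⟩ := hUKM σ V X Θ M B 𝔸 D h hS gen (B.vt (Classical.arbitrary V))
  have hπ : ∀ t, tm B B m0 t = tyb B h gen (fun _ => t) := by
    intro t
    by_cases ht : t = B.vt (Classical.arbitrary V)
    · rw [ht]
      exact hm0a
    · exact hm0b t ht
  obtain ⟨j, hj⟩ := iter_fin (tm B B m0) (h1 m0 hm0)
  have key : ∀ j : ℕ, UM B B 𝔸 𝔸 (m0^[j]) ∧ ∀ s, tm B B (m0^[j]) s = (tm B B m0)^[j] s := by
    intro j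
    induction j with
    | zero =>
      refine ⟨fun s x hx => ⟨x, hx, fun a b => rfl⟩, fun s => ?_⟩
      show B.L (B.fr s s) = s
      exact B.frL s s
    | succ j ih =>
      have h3 := hUMC σ V X Θ V X Θ V X Θ M B B B 𝔸 𝔸 𝔸 m0 (m0^[j]) hm0 ih.1
      refine ⟨h3.1, fun s => ?_⟩
      rw [Function.iterate_succ_apply, ← ih.2]
      exact h3.2 s
  obtain ⟨hm, hmt⟩ := key j
  refine ⟨fun v w => m0^[j] (h v w), ⟨⟨hS.blind, ?_, ?_, ?_⟩, h1, h2, ?_⟩⟩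
  · intro s v hv
    obtain ⟨x, hx, hx'⟩ := hS.pm s v hv
    obtain ⟨y, hy, hy'⟩ := hm s x hx
    exact ⟨y, hy, fun a b => by rw [hy' a b, hx' a b]⟩
  · intro v w v' w' hs
    exact congrArg (m0^[j]) (hS.tid v w v' w' hs)
  · intro r x y x' y'
    exact congrArg (m0^[j]) (hS.exact r x y x' y')
  · intro κ s z hz hzs
    have hM : 0 < M := lt_of_lt_of_le (by norm_num) B.four
    obtain ⟨x, -, hx'⟩ := hS.pm (none : Option (Fin σ.m)) (fun _ => z) (fun i => trivial)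
    have h3 : B.ct (x (⟨0, hM⟩ : Fin M)) (x (⟨0, hM⟩ : Fin M)) = h z z := hx' _ _
    have h4 : B.L (h z z).1 = tm B B m0 s := by
      rw [(hTYB V X Θ M B D h hS.tid).1 κ (fun _ => s) z hz hzs, hPRM σ V X Θ M B 𝔸 D h hS h1 κ s,
        hπ]
    show B.L (m0^[j] (h z z)).1 = s
    rw [← h3, ((hUMB σ V X Θ V X Θ M B B 𝔸 𝔸 (m0^[j]) hm).1 _ _).1, hmt]
    rw [← h3, Bs.ct_fst, B.left] at h4
    rw [h4]
    exact hj s

end Pool.Agent.H81.SO
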